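import Pool.Agent.helper32.TRI.Spec

/-!
# TRI:CV4: the vectors `c4 i`
-/

set_option autoImplicit false

open Finset

namespace Pool.Agent.TRI

open Pool.Agent.EXC

/-- a letter -/
theorem CV4_XG (K : Type) [Field K] (k : Fin 24) (t : ℤ) (v : Lm C4 K) :
    XG C4 (lt4 k) ((t : K) * (1 : K) ^ (cv4 0 (lt4 k))) v = xe C4 (E C4 (lt4 k)) (t : K) v := by
  rw [one_zpow, mul_one]
  exact (g_XG K (lt4 k) (lt4_root k).1 (t : K)).1 v

/-- a word on a list -/
theorem CV4_word (K : Type) [Field K] (l0 : List ((Fin 4 → ℤ) × ℤ)) : ∀ l : List (Fin 24 × ℤ),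
    (∀ j : ℕ, ∀ p ∈ (l.drop j).head?, okl4 (lt4 p.1) ((l.drop (j + 1)).foldr (fun p l => xr C4 (lt4 p.1) p.2 l) l0)) →
    gw4 0 (1 : K) l (ls C4 l0) = (ls C4 (l.foldr (fun p l => xr C4 (lt4 p.1) p.2 l) l0) : Lm C4 K) := by
  intro l
  induction l with
  | nil =>
    intro _
    simp [gw4]
  | cons p l ih =>
    intro h
    have h1 := ih fun j q hq => by
      have h2 := h (j + 1) q (by rwa [List.drop_succ_cons])
      rwa [List.drop_succ_cons] at h2
    have h3 : okl4 (lt4 p.1) (l.foldr (fun p l => xr C4 (lt4 p.1) p.2 l) l0) := by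
      have h4 := h 0 p (by simp)
      rwa [List.drop_succ_cons, List.drop_zero] at h4
    have h5 : gw4 0 (1 : K) (p :: l) = XG C4 (lt4 p.1) ((p.2 : K) * (1 : K) ^ (cv4 0 (lt4 p.1))) * gw4 0 (1 : K) l := by
      unfold gw4
      rw [List.map_cons, List.prod_cons]
    rw [h5, LinearEquiv.mul_apply, h1, CV4_XG, List.foldr_cons]
    exact (g_XRL 4 C4 K (lt4 p.1) p.2 _ (lt4_root p.1).1 h3).1

theorem CV4_len : ∀ i : Fin 3, (wd4 i).length ≤ 3 := by decide +kernel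

/-- the vectors as lists -/
theorem CV4_ls (K : Type) [Field K] (i : Fin 3) : c4 K i = (sb4 i : K) • (ls C4 (cl4 i) : Lm C4 K) := by
  have h1 : (E C4 (lt4 (bs4 i)) : Lm C4 K) = ls C4 [(lt4 (bs4 i), 1)] := by
    simp [ls]
  unfold c4 cl4
  rw [h1]
  congr 1
  apply CV4_word
  intro j p hp
  rcases lt_or_ge j 3 with hj | hj
  · exact cl4_ok i ⟨j, hj⟩ p hp
  · have h2 : (wd4 i).drop j = [] := List.drop_eq_nil_of_le (le_trans (CV4_len i) hj)
    rw [h2] at hp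
    simp at hp

theorem CV4 : CV4_stmt := by
  intro K _
  have h0 := fun i j => g_FML 4 C4 K (cl4 i) (cl4 j) (cl4_root i) (cl4_root j)
  have h1 : fm C4 (c4 K 0) (c4 K 1) = 1 := by
    rw [CV4_ls, CV4_ls, fm_smul_left, fm_smul_right, (h0 0 1).1, ← mul_assoc]
    exact_mod_cast congrArg (Int.cast : ℤ → K) fml4
  refine ⟨h1, ?_⟩
  intro κ κ' hκ' h
  have h2 : cf (c4 K 0) ![0, 1, 0, 1] = 0 := by
    rw [CV4_ls, cf_smul, (h0 0 0).2, cfl4.1, Int.cast_zero, mul_zero]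
  have h3 : cf (c4 K 2) ![0, 1, 0, 1] = -1 := by
    rw [CV4_ls, cf_smul, (h0 2 0).2, cfl4.2]
    have h4 : sb4 2 = 1 := by decide +kernel
    rw [h4]
    simp
  have h4 : κ = 0 := by
    have h5 := congrArg (fun v : Lm C4 K => cf v ![0, 1, 0, 1]) h
    have h6 : cf (κ' • c4 K 0) ![0, 1, 0, 1] = cf (κ • c4 K 2) ![0, 1, 0, 1] := h5
    rw [cf_smul, cf_smul, h2, h3] at h6
    simpa using h6
  rw [h4, zero_smul] at h
  have h7 : c4 K 0 = 0 := (smul_eq_zero.mp h).resolve_left hκ'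
  rw [h7, fm_zero_left] at h1
  exact zero_ne_one h1

end Pool.Agent.TRI
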